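import Mathlib

/-!
For every real `p > 2` the eigenvalue majorization `λ(A² + |BA|^p) ≻ λ(A² + |AB|^p)` fails for
some `3 × 3` positive semidefinite matrices.

Construction. Put `θ = 2^(2/p) ∈ (1, 2)`, `x = 3θ/(14 - 3θ) < 3/4`, `κ² = (14 - 3θ)/42`,
`A = diag(√x, √(x+1), 0)` and `B = κ [[2,1,3],[1,1,-1],[3,-1,17]]`. The first two columns
`b₁, b₂` of `B` are orthogonal, so `|BA| = diag(√θ, 1, 0)` and `|AB| = √θ P₁ + P₂` with `P₁, P₂`
the projections on `b₁, b₂`. Hence `A² + |BA|^p = diag(x+2, x+2, 0)`, while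
`A² + |AB|^p = diag(x, x+1, 0) + 2 P₁ + P₂` has Rayleigh quotient larger than `x + 2`
at the vector `(7, 9, 4)`.
-/

set_option autoImplicit false

open scoped MatrixOrder ComplexOrder Matrix

namespace Pool.Agent.Results.MP_26c808_an.FailsAboveTwo

/-- The sum of the `k` largest eigenvalues (with multiplicity) of a Hermitian matrix;
`hX.eigenvalues₀` is the list of its eigenvalues in decreasing order. -/
noncomputable def topSum {n : ℕ} {X : Matrix (Fin n) (Fin n) ℂ} (hX : X.IsHermitian) (k : ℕ) : ℝ :=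
  ∑ i : Fin (Fintype.card (Fin n)), if (i : ℕ) < k then hX.eigenvalues₀ i else 0

/-- `λ(X) ≻ λ(Y)`: the decreasing eigenvalue list of `X` majorizes that of `Y`. -/
def EigMajorizes {n : ℕ} {X Y : Matrix (Fin n) (Fin n) ℂ} (hX : X.IsHermitian)
    (hY : Y.IsHermitian) : Prop :=
  (∀ k : ℕ, 1 ≤ k → k ≤ n - 1 → topSum hY k ≤ topSum hX k) ∧ topSum hX n = topSum hY n

/-! ### Powers of combinations of two orthogonal projections -/

section proj

variable {P Q : Matrix (Fin 3) (Fin 3) ℂ}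

lemma comb_nonneg (hPh : P.IsHermitian) (hQh : Q.IsHermitian) (hP : P * P = P) (hQ : Q * Q = Q)
    {s t : ℝ} (hs : 0 ≤ s) (ht : 0 ≤ t) : 0 ≤ s • P + t • Q := by
  have h1 : 0 ≤ P := by
    rw [← hP]; nth_rewrite 1 [← hPh.eq]
    exact star_mul_self_nonneg P
  have h2 : 0 ≤ Q := by
    rw [← hQ]; nth_rewrite 1 [← hQh.eq]
    exact star_mul_self_nonneg Q
  exact add_nonneg (smul_nonneg hs h1) (smul_nonneg ht h2)

lemma comb_sq (hP : P * P = P) (hQ : Q * Q = Q) (hPQ : P * Q = 0) (hQP : Q * P = 0) (s t : ℝ) :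
    (s • P + t • Q) * (s • P + t • Q) = (s * s) • P + (t * t) • Q := by
  simp only [add_mul, mul_add, smul_mul_assoc, mul_smul_comm, hP, hQ, hPQ, hQP, smul_zero,
    add_zero, zero_add, smul_smul]

lemma comb_rpow (hPh : P.IsHermitian) (hQh : Q.IsHermitian) (hP : P * P = P) (hQ : Q * Q = Q)
    (hPQ : P * Q = 0) (hQP : Q * P = 0) {s t : ℝ} (hs : 0 < s) (ht : 0 < t) (hst : s ≠ t)
    {p : ℝ} (hp : 0 < p) :
    (s • P + t • Q) ^ p = (s ^ p) • P + (t ^ p) • Q := by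
  set M : Matrix (Fin 3) (Fin 3) ℂ := s • P + t • Q with hM
  have hMn : 0 ≤ M := comb_nonneg hPh hQh hP hQ hs.le ht.le
  have hMsa : IsSelfAdjoint M := hMn.isSelfAdjoint
  have hM2 : M * M = (s * s) • P + (t * t) • Q := comb_sq hP hQ hPQ hQP s t
  -- interpolation coefficients
  obtain ⟨a, b, ha, hb⟩ : ∃ a b : ℝ, a * s + b * s ^ 2 = s ^ p ∧ a * t + b * t ^ 2 = t ^ p := by
    have hst' : s - t ≠ 0 := sub_ne_zero.mpr hst
    refine ⟨(s ^ 2 * t ^ p - t ^ 2 * s ^ p) / (s * t * (s - t)),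
      (t * s ^ p - s * t ^ p) / (s * t * (s - t)), ?_, ?_⟩ <;> field_simp <;> ring
  -- the spectrum of M
  have hann : M * (M - algebraMap ℝ _ s) * (M - algebraMap ℝ _ t) = 0 := by
    have e1 : M * (M - algebraMap ℝ _ s) = (t * t - s * t) • Q := by
      rw [mul_sub, hM2, Algebra.algebraMap_eq_smul_one, mul_smul_comm, mul_one, hM, smul_add,
        smul_smul, smul_smul, sub_smul]
      abel
    rw [e1, smul_mul_assoc, mul_sub, Algebra.algebraMap_eq_smul_one, mul_smul_comm, mul_one, hM,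
      mul_add, mul_smul_comm, mul_smul_comm, hQP, hQ, smul_zero, zero_add, sub_self, smul_zero]
  have hspec : ∀ x ∈ spectrum ℝ M, x = 0 ∨ x = s ∨ x = t := by
    intro x hx
    open Polynomial in
    have h0 : aeval M ((X : ℝ[X]) * (X - C s) * (X - C t)) = 0 := by
      simp only [map_mul, map_sub, aeval_X, aeval_C]
      exact hann
    have h1 := spectrum.subset_polynomial_aeval M
      ((Polynomial.X : Polynomial ℝ) * (Polynomial.X - Polynomial.C s) *
        (Polynomial.X - Polynomial.C t))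
    have h2 := h1 (Set.mem_image_of_mem _ hx)
    rw [h0, spectrum.zero_eq] at h2
    simp only [Polynomial.eval_mul, Polynomial.eval_X, Polynomial.eval_sub, Polynomial.eval_C,
      Set.mem_singleton_iff, mul_eq_zero, sub_eq_zero] at h2
    tauto
  rw [CFC.rpow_eq_cfc_real hMn]
  have hcongr : cfc (fun x : ℝ => x ^ p) M = cfc (fun x : ℝ => a * x + b * x ^ 2) M := by
    apply cfc_congr
    intro x hx
    rcases hspec x hx with rfl | rfl | rfl
    · simp [Real.zero_rpow hp.ne']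
    · exact ha.symm
    · exact hb.symm
  rw [hcongr, cfc_add (a := M) (fun x : ℝ => a * x) (fun x : ℝ => b * x ^ 2),
    cfc_const_mul a (fun x : ℝ => x) M, cfc_const_mul b (fun x : ℝ => x ^ 2) M,
    cfc_id' ℝ M, cfc_pow_id M 2, pow_two, hM2, hM, smul_add, smul_add, smul_smul, smul_smul,
    smul_smul, smul_smul, ← ha, ← hb, add_smul, add_smul, pow_two, pow_two]
  abel

end proj


/-! ### The explicit matrices -/

/-- `diag(a, b, 0)` -/
noncomputable def dA (a b : ℝ) : Matrix (Fin 3) (Fin 3) ℂ := !![(a : ℂ), 0, 0; 0, (b : ℂ), 0; 0, 0, 0]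

/-- `κ` times a fixed positive semidefinite integer matrix whose first two columns are orthogonal -/
noncomputable def mB (κ : ℝ) : Matrix (Fin 3) (Fin 3) ℂ :=
  !![2 * (κ : ℂ), κ, 3 * κ; (κ : ℂ), κ, -κ; 3 * (κ : ℂ), -κ, 17 * κ]

/-- projection on the first column of `mB 1` -/
noncomputable def P1 : Matrix (Fin 3) (Fin 3) ℂ :=
  !![4 / 14, 2 / 14, 6 / 14; 2 / 14, 1 / 14, 3 / 14; 6 / 14, 3 / 14, 9 / 14]

/-- projection on the second column of `mB 1` -/
noncomputable def P2 : Matrix (Fin 3) (Fin 3) ℂ :=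
  !![1 / 3, 1 / 3, -1 / 3; 1 / 3, 1 / 3, -1 / 3; -1 / 3, -1 / 3, 1 / 3]

lemma dA_herm (a b : ℝ) : (dA a b).IsHermitian := by
  ext i j
  fin_cases i <;> fin_cases j <;> simp [dA]

lemma dA_pos {a b : ℝ} (ha : 0 ≤ a) (hb : 0 ≤ b) : (dA a b).PosSemidef := by
  have : dA a b = Matrix.diagonal (fun i : Fin 3 => ((![a, b, 0] i : ℝ) : ℂ)) := by
    ext i j
    fin_cases i <;> fin_cases j <;> simp [dA]
  rw [this]
  apply Matrix.PosSemidef.diagonal
  intro i
  fin_cases i <;> simp [ha, hb]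

lemma mB_herm (κ : ℝ) : (mB κ).IsHermitian := by
  ext i j
  fin_cases i <;> fin_cases j <;> simp [mB]

lemma mB_pos {κ : ℝ} (hκ : 0 ≤ κ) : (mB κ).PosSemidef := by
  have : mB κ = κ • ((!![1, 1, -1; 1, 0, 4; 0, 0, 0] : Matrix (Fin 3) (Fin 3) ℂ).conjTranspose *
      !![1, 1, -1; 1, 0, 4; 0, 0, 0]) := by
    ext i j
    fin_cases i <;> fin_cases j <;>
      simp [mB, Matrix.mul_apply, Fin.sum_univ_three, Complex.conj_ofNat] <;> ring
  rw [this]
  exact (Matrix.posSemidef_conjTranspose_mul_self _).smul hκ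

lemma P1_herm : P1.IsHermitian := by
  ext i j
  fin_cases i <;> fin_cases j <;> simp [P1]

lemma P2_herm : P2.IsHermitian := by
  ext i j
  fin_cases i <;> fin_cases j <;> simp [P2]

lemma P1_sq : P1 * P1 = P1 := by
  ext i j
  fin_cases i <;> fin_cases j <;> simp [P1, Matrix.mul_apply, Fin.sum_univ_three] <;> norm_num

lemma P2_sq : P2 * P2 = P2 := by
  ext i j
  fin_cases i <;> fin_cases j <;> simp [P2, Matrix.mul_apply, Fin.sum_univ_three] <;> norm_num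

lemma P1_P2 : P1 * P2 = 0 := by
  ext i j
  fin_cases i <;> fin_cases j <;> simp [P1, P2, Matrix.mul_apply, Fin.sum_univ_three] <;> norm_num

lemma P2_P1 : P2 * P1 = 0 := by
  ext i j
  fin_cases i <;> fin_cases j <;> simp [P1, P2, Matrix.mul_apply, Fin.sum_univ_three] <;> norm_num

lemma E1_sq : dA 1 0 * dA 1 0 = dA 1 0 := by
  ext i j
  fin_cases i <;> fin_cases j <;> simp [dA, Matrix.mul_apply, Fin.sum_univ_three]

lemma E2_sq : dA 0 1 * dA 0 1 = dA 0 1 := by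
  ext i j
  fin_cases i <;> fin_cases j <;> simp [dA, Matrix.mul_apply, Fin.sum_univ_three]

lemma E1_E2 : dA 1 0 * dA 0 1 = 0 := by
  ext i j
  fin_cases i <;> fin_cases j <;> simp [dA, Matrix.mul_apply, Fin.sum_univ_three]

lemma E2_E1 : dA 0 1 * dA 1 0 = 0 := by
  ext i j
  fin_cases i <;> fin_cases j <;> simp [dA, Matrix.mul_apply, Fin.sum_univ_three]

lemma BA_sq (a b κ : ℝ) : star (mB κ * dA a b) * (mB κ * dA a b) =
    (14 * κ ^ 2 * a ^ 2) • dA 1 0 + (3 * κ ^ 2 * b ^ 2) • dA 0 1 := by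
  ext i j
  fin_cases i <;> fin_cases j <;>
    simp [mB, dA, Matrix.mul_apply, Fin.sum_univ_three, Matrix.star_apply,
      Complex.conj_ofNat] <;> ring

lemma AB_sq (a b κ : ℝ) : star (dA a b * mB κ) * (dA a b * mB κ) =
    (14 * κ ^ 2 * a ^ 2) • P1 + (3 * κ ^ 2 * b ^ 2) • P2 := by
  ext i j
  fin_cases i <;> fin_cases j <;>
    simp [mB, dA, P1, P2, Matrix.mul_apply, Fin.sum_univ_three, Matrix.star_apply,
      Complex.conj_ofNat] <;> ring


/-! ### Largest eigenvalues -/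

lemma card_pos : 0 < Fintype.card (Fin 3) := by simp

lemma topSum_one {X : Matrix (Fin 3) (Fin 3) ℂ} (hX : X.IsHermitian) :
    topSum hX 1 = hX.eigenvalues₀ ⟨0, card_pos⟩ := by
  unfold topSum
  rw [Finset.sum_eq_single (⟨0, card_pos⟩ : Fin (Fintype.card (Fin 3)))]
  · simp
  · intro b _ hb
    have : (b : ℕ) ≠ 0 := fun h => hb (Fin.ext h)
    simp [this]
  · simp

lemma topSum_one_le {X : Matrix (Fin 3) (Fin 3) ℂ} (hX : X.IsHermitian) {c : ℝ}
    (h : X ≤ algebraMap ℝ _ c) : topSum hX 1 ≤ c := by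
  rw [topSum_one]
  have h1 := (le_algebraMap_iff_spectrum_le (R := ℝ) (r := c) (a := X) hX.isSelfAdjoint).1 h
  have h2 := hX.eigenvalues_mem_spectrum_real
    ((Fintype.equivOfCardEq (Fintype.card_fin _)) (⟨0, card_pos⟩ : Fin (Fintype.card (Fin 3))))
  have h3 := h1 _ h2
  simpa [Matrix.IsHermitian.eigenvalues] using h3

lemma le_of_topSum_one_le {Y : Matrix (Fin 3) (Fin 3) ℂ} (hY : Y.IsHermitian) {c : ℝ}
    (h : topSum hY 1 ≤ c) : Y ≤ algebraMap ℝ _ c := by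
  rw [topSum_one] at h
  rw [le_algebraMap_iff_spectrum_le (R := ℝ) (r := c) (a := Y) hY.isSelfAdjoint]
  intro x hx
  rw [hY.spectrum_real_eq_range_eigenvalues] at hx
  obtain ⟨i, rfl⟩ := hx
  refine le_trans ?_ h
  exact hY.eigenvalues₀_antitone (Fin.mk_le_of_le_val (Nat.zero_le _))

/-- For every real `p > 2` there are `3 × 3` positive semidefinite `A`, `B` such that
`λ(A² + |BA|^p)` does not majorize `λ(A² + |AB|^p)`. -/
theorem result (p : ℝ) (hp : 2 < p) :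
    ∃ A B : Matrix (Fin 3) (Fin 3) ℂ, A.PosSemidef ∧ B.PosSemidef ∧
      ∃ (hX : (A ^ 2 + CFC.abs (B * A) ^ p).IsHermitian)
        (hY : (A ^ 2 + CFC.abs (A * B) ^ p).IsHermitian), ¬ EigMajorizes hX hY := by
  have hp0 : 0 < p := by linarith
  -- parameters
  obtain ⟨θ, hθ⟩ : ∃ θ : ℝ, θ = (2 : ℝ) ^ (2 / p) := ⟨_, rfl⟩
  have hθ1 : 1 < θ := by
    rw [hθ]; exact Real.one_lt_rpow (by norm_num) (by positivity)
  have hθ2 : θ < 2 := by
    rw [hθ]
    calc (2 : ℝ) ^ (2 / p) < (2 : ℝ) ^ (1 : ℝ) :=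
          Real.rpow_lt_rpow_of_exponent_lt (by norm_num) (by rw [div_lt_one hp0]; exact hp)
      _ = 2 := Real.rpow_one 2
  have hd : 0 < 14 - 3 * θ := by linarith
  obtain ⟨x, hx⟩ : ∃ x : ℝ, x = 3 * θ / (14 - 3 * θ) := ⟨_, rfl⟩
  have hx0 : 0 < x := by rw [hx]; positivity
  have hx34 : x < 3 / 4 := by
    rw [hx, div_lt_iff₀ hd]; linarith
  obtain ⟨κ, hκ⟩ : ∃ κ : ℝ, κ = Real.sqrt ((14 - 3 * θ) / 42) := ⟨_, rfl⟩
  have hκ0 : 0 ≤ κ := by rw [hκ]; positivity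
  have hκ2 : κ ^ 2 = (14 - 3 * θ) / 42 := by rw [hκ]; exact Real.sq_sqrt (by positivity)
  obtain ⟨a, ha⟩ : ∃ a : ℝ, a = Real.sqrt x := ⟨_, rfl⟩
  have ha0 : 0 ≤ a := by rw [ha]; positivity
  have ha2 : a ^ 2 = x := by rw [ha]; exact Real.sq_sqrt hx0.le
  obtain ⟨b, hb⟩ : ∃ b : ℝ, b = Real.sqrt (x + 1) := ⟨_, rfl⟩
  have hb0 : 0 ≤ b := by rw [hb]; positivity
  have hb2 : b ^ 2 = x + 1 := by rw [hb]; exact Real.sq_sqrt (by positivity)
  have e1 : 14 * κ ^ 2 * a ^ 2 = θ := by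
    rw [hκ2, ha2, hx]; field_simp; ring
  have e2 : 3 * κ ^ 2 * b ^ 2 = 1 := by
    rw [hκ2, hb2, hx]; field_simp; ring
  set s : ℝ := Real.sqrt θ with hs
  have hs0 : 0 < s := Real.sqrt_pos.mpr (by linarith)
  have hss : s * s = θ := Real.mul_self_sqrt (by linarith)
  have hs1 : s ≠ 1 := by
    intro h; rw [h] at hss; linarith
  have hsp : s ^ p = 2 := by
    have h2 : (0 : ℝ) ≤ 2 := by norm_num
    rw [hs, Real.sqrt_eq_rpow, hθ, ← Real.rpow_mul h2, ← Real.rpow_mul h2]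
    have : 2 / p * (1 / 2) * p = 1 := by field_simp
    rw [this, Real.rpow_one]
  -- the absolute values
  have hBA : CFC.abs (mB κ * dA a b) = s • dA 1 0 + (1 : ℝ) • dA 0 1 := by
    unfold CFC.abs
    refine CFC.sqrt_unique ?_ (comb_nonneg (dA_herm _ _) (dA_herm _ _) E1_sq E2_sq hs0.le
      zero_le_one)
    rw [comb_sq E1_sq E2_sq E1_E2 E2_E1, BA_sq, e1, e2, hss, one_mul]
  have hAB : CFC.abs (dA a b * mB κ) = s • P1 + (1 : ℝ) • P2 := by
    unfold CFC.abs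
    refine CFC.sqrt_unique ?_ (comb_nonneg P1_herm P2_herm P1_sq P2_sq hs0.le zero_le_one)
    rw [comb_sq P1_sq P2_sq P1_P2 P2_P1, AB_sq, e1, e2, hss, one_mul]
  have hX' : dA a b ^ 2 + CFC.abs (mB κ * dA a b) ^ p =
      !![((x + 2 : ℝ) : ℂ), 0, 0; 0, ((x + 2 : ℝ) : ℂ), 0; 0, 0, 0] := by
    rw [hBA, comb_rpow (dA_herm _ _) (dA_herm _ _) E1_sq E2_sq E1_E2 E2_E1 hs0 one_pos hs1 hp0,
      hsp, Real.one_rpow]
    have ha2' : (a : ℂ) * a = x := by rw [← ha2]; push_cast; ring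
    have hb2' : (b : ℂ) * b = x + 1 := by
      rw [← Complex.ofReal_mul, ← pow_two, hb2]; push_cast; ring
    ext i j
    fin_cases i <;> fin_cases j <;>
      simp [dA, pow_two, ha2', hb2'] <;> ring
  have hY' : dA a b ^ 2 + CFC.abs (dA a b * mB κ) ^ p =
      dA a b ^ 2 + ((2 : ℝ) • P1 + (1 : ℝ) • P2) := by
    rw [hAB, comb_rpow P1_herm P2_herm P1_sq P2_sq P1_P2 P2_P1 hs0 one_pos hs1 hp0,
      hsp, Real.one_rpow]
  have hXh : (dA a b ^ 2 + CFC.abs (mB κ * dA a b) ^ p).IsHermitian :=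
    ((dA_herm a b).pow 2).add (CFC.rpow_nonneg.isSelfAdjoint)
  have hYh : (dA a b ^ 2 + CFC.abs (dA a b * mB κ) ^ p).IsHermitian :=
    ((dA_herm a b).pow 2).add (CFC.rpow_nonneg.isSelfAdjoint)
  refine ⟨dA a b, mB κ, dA_pos ha0 hb0, mB_pos hκ0, hXh, hYh, ?_⟩
  intro hmaj
  have h1 := hmaj.1 1 le_rfl (by norm_num)
  have h2 : topSum hXh 1 ≤ x + 2 := by
    apply topSum_one_le
    rw [hX', Matrix.le_iff]
    have : (algebraMap ℝ (Matrix (Fin 3) (Fin 3) ℂ) (x + 2) -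
        !![((x + 2 : ℝ) : ℂ), 0, 0; 0, ((x + 2 : ℝ) : ℂ), 0; 0, 0, 0]) =
        Matrix.diagonal (fun i : Fin 3 => ((![0, 0, x + 2] i : ℝ) : ℂ)) := by
      ext i j
      fin_cases i <;> fin_cases j <;> simp [Matrix.algebraMap_matrix_apply]
    rw [this]
    apply Matrix.PosSemidef.diagonal
    intro i
    fin_cases i <;> simp <;> norm_cast <;> positivity
  have h3 := le_of_topSum_one_le hYh (h1.trans h2)
  rw [hY', Matrix.le_iff] at h3
  have h4 := h3.re_dotProduct_nonneg (![7, 9, 4] : Fin 3 → ℂ)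
  have ha2' : (a : ℂ) * a = x := by rw [← ha2]; push_cast; ring
  have hb2' : (b : ℂ) * b = x + 1 := by
    rw [← Complex.ofReal_mul, ← pow_two, hb2]; push_cast; ring
  have h5 : star (![7, 9, 4] : Fin 3 → ℂ) ⬝ᵥ
      ((algebraMap ℝ (Matrix (Fin 3) (Fin 3) ℂ) (x + 2) -
        (dA a b ^ 2 + ((2 : ℝ) • P1 + (1 : ℝ) • P2))) *ᵥ ![7, 9, 4]) =
      ((16 * (x - 3 / 4) : ℝ) : ℂ) := by
    have hE : (algebraMap ℝ (Matrix (Fin 3) (Fin 3) ℂ) (x + 2) -
        (dA a b ^ 2 + ((2 : ℝ) • P1 + (1 : ℝ) • P2))) =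
        !![23 / 21, -13 / 21, -11 / 21; -13 / 21, 11 / 21, -2 / 21;
          -11 / 21, -2 / 21, ((x + 8 / 21 : ℝ) : ℂ)] := by
      ext i j
      fin_cases i <;> fin_cases j <;>
        simp [dA, P1, P2, pow_two, ha2', hb2', Matrix.algebraMap_matrix_apply] <;> ring
    rw [hE]
    simp [Matrix.mulVec, dotProduct, Fin.sum_univ_three, Complex.conj_ofNat]
    ring
  rw [h5] at h4
  simp only [RCLike.re_to_complex, Complex.ofReal_re] at h4
  linarith

end Pool.Agent.Results.MP_26c808_an.FailsAboveTwo
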